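import Mathlib

set_option autoImplicit false

namespace Pool.Agent.H.MP_f0defb_al

universe u

/-- `r × id` on triples. -/
def r12 {Y : Type u} (r : Y × Y → Y × Y) (t : Y × Y × Y) : Y × Y × Y :=
  ((r (t.1, t.2.1)).1, (r (t.1, t.2.1)).2, t.2.2)

/-- `id × r` on triples. -/
def r23 {Y : Type u} (r : Y × Y → Y × Y) (t : Y × Y × Y) : Y × Y × Y := (t.1, r t.2)

/-- Non-degenerate set-theoretic solution of the braid relation. -/
def IsSol {Y : Type u} (r : Y × Y → Y × Y) : Prop :=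
  r12 r ∘ r23 r ∘ r12 r = r23 r ∘ r12 r ∘ r23 r ∧
    (∀ x, Function.Bijective fun y => (r (x, y)).1) ∧
    ∀ y, Function.Bijective fun x => (r (x, y)).2

/-- `(F, r)` with `i` is a free solution on `X`. -/
def IsFree {X F : Type u} (r : F × F → F × F) (i : X → F) : Prop :=
  IsSol r ∧ ∀ (Z : Type u) (s : Z × Z → Z × Z), IsSol s → ∀ f : X → Z,
    ∃! φ : F → Z, Prod.map φ φ ∘ r = s ∘ Prod.map φ φ ∧ φ ∘ i = f

/-- Relators of the structure group. -/
def rels {Y : Type u} (r : Y × Y → Y × Y) : Set (FreeGroup Y) :=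
  {w | ∃ x y : Y, w = FreeGroup.of x * FreeGroup.of y *
    (FreeGroup.of (r (x, y)).1 * FreeGroup.of (r (x, y)).2)⁻¹}

end Pool.Agent.H.MP_f0defb_al
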