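import Mathlib
import Pool.Agent.H.MP_f0defb_al.Defs

set_option autoImplicit false

namespace Pool.Agent.H.MP_f0defb_al

universe u

open Function

theorem not_inj {X F : Type u} [Nonempty X] (r : F × F → F × F) (i : X → F) (h : IsFree r i) :
    ¬ Injective (PresentedGroup.of : F → PresentedGroup (rels r)) := by
  intro hinj
  obtain ⟨x0⟩ := ‹Nonempty X›
  obtain ⟨y, hy⟩ := (h.1.2.1 (i x0)).2 (i x0)
  have e : (PresentedGroup.of (i x0) * PresentedGroup.of y *
      (PresentedGroup.of (r (i x0, y)).1 * PresentedGroup.of (r (i x0, y)).2)⁻¹ :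
      PresentedGroup (rels r)) = 1 :=
    PresentedGroup.one_of_mem (rels := rels r) ⟨i x0, y, rfl⟩
  simp only at hy
  rw [mul_inv_eq_one, hy, mul_right_inj] at e
  have e2 := hinj e
  obtain ⟨φ, ⟨h1, -⟩, -⟩ := h.2 (ULift Bool) (fun p => (p.2, ⟨!p.1.down⟩))
    ⟨rfl, fun _ => bijective_id, fun _ => Involutive.bijective fun x => by simp⟩ fun _ => ⟨true⟩
  have := congrFun h1 (i x0, y)
  simp only [comp, Prod.map, hy, ← e2, Prod.mk.injEq] at this
  have h3 := congrArg ULift.down (this.1.trans this.2)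
  simp at h3

inductive T (X : Type u) : Type u
  | var : X → T X
  | op : Fin 4 → T X → T X → T X

open Classical in
noncomputable def ops {Z : Type u} (s : Z × Z → Z × Z) (hs : IsSol s) : Fin 4 → Z → Z → Z :=
  ![fun x y => (s (x, y)).1, fun x y => (s (x, y)).2,
    fun x y => (Equiv.ofBijective _ (hs.2.1 x)).symm y,
    fun x y => (Equiv.ofBijective _ (hs.2.2 y)).symm x]

noncomputable def ev {X Z : Type u} (s : Z × Z → Z × Z) (hs : IsSol s) (f : X → Z) : T X → Z
  | .var x => f x
  | .op k a b => ops s hs k (ev s hs f a) (ev s hs f b)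

def st (X : Type u) : Setoid (T X) where
  r a b := ∀ (Z : Type u) (s : Z × Z → Z × Z) (hs : IsSol s) (f : X → Z), ev s hs f a = ev s hs f b
  iseqv := ⟨fun _ _ _ _ _ => rfl, fun h Z s hs f => (h Z s hs f).symm,
    fun h h' Z s hs f => (h Z s hs f).trans (h' Z s hs f)⟩

def qop {X : Type u} (k : Fin 4) : Quotient (st X) → Quotient (st X) → Quotient (st X) :=
  Quotient.map₂ (T.op k) fun _ _ h _ _ h' Z s hs f => by
    simp only [ev, h Z s hs f, h' Z s hs f]

theorem exists_free (X : Type u) : ∃ (F : Type u) (r : F × F → F × F) (i : X → F), IsFree r i := by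
  have a1 : ∀ a b : Quotient (st X), qop 0 a (qop 2 a b) = b := fun a b =>
    Quotient.inductionOn₂ a b fun a b => Quotient.sound fun Z s hs f =>
      (Equiv.ofBijective _ (hs.2.1 _)).apply_symm_apply _
  have a2 : ∀ a b : Quotient (st X), qop 2 a (qop 0 a b) = b := fun a b =>
    Quotient.inductionOn₂ a b fun a b => Quotient.sound fun Z s hs f =>
      (Equiv.ofBijective _ (hs.2.1 _)).symm_apply_apply _
  have a3 : ∀ a b : Quotient (st X), qop 1 (qop 3 a b) b = a := fun a b =>
    Quotient.inductionOn₂ a b fun a b => Quotient.sound fun Z s hs f =>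
      (Equiv.ofBijective _ (hs.2.2 _)).apply_symm_apply _
  have a4 : ∀ a b : Quotient (st X), qop 3 (qop 1 a b) b = a := fun a b =>
    Quotient.inductionOn₂ a b fun a b => Quotient.sound fun Z s hs f =>
      (Equiv.ofBijective _ (hs.2.2 _)).symm_apply_apply _
  refine ⟨Quotient (st X), fun p => (qop 0 p.1 p.2, qop 1 p.1 p.2), fun x => ⟦.var x⟧,
    ⟨funext fun ⟨a, b, c⟩ => ?_, fun a => bijective_iff_has_inverse.2 ⟨qop 2 a, a2 a, a1 a⟩,
      fun b => bijective_iff_has_inverse.2 ⟨fun a => qop 3 a b, fun a => a4 a b, fun a => a3 a b⟩⟩,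
    fun Z s hs f => ⟨Quotient.lift (ev s hs f) fun _ _ h => h Z s hs f,
      ⟨funext fun ⟨a, b⟩ => Quotient.inductionOn₂ a b fun a b => rfl, rfl⟩, ?_⟩⟩
  · induction a using Quotient.inductionOn with | h a =>
    induction b using Quotient.inductionOn with | h b =>
    induction c using Quotient.inductionOn with | h c =>
    refine Prod.ext (Quotient.sound fun Z s hs f => ?_) (Prod.ext
      (Quotient.sound fun Z s hs f => ?_) (Quotient.sound fun Z s hs f => ?_))
    · exact congrArg (·.1) (congrFun hs.1 (ev s hs f a, ev s hs f b, ev s hs f c))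
    · exact congrArg (·.2.1) (congrFun hs.1 (ev s hs f a, ev s hs f b, ev s hs f c))
    · exact congrArg (·.2.2) (congrFun hs.1 (ev s hs f a, ev s hs f b, ev s hs f c))
  · rintro φ ⟨h1, rfl⟩
    have b1 : ∀ a b, φ (qop 0 a b) = (s (φ a, φ b)).1 := fun a b => congrArg (·.1) (congrFun h1 (a, b))
    have b2 : ∀ a b, φ (qop 1 a b) = (s (φ a, φ b)).2 := fun a b => congrArg (·.2) (congrFun h1 (a, b))
    funext t
    induction t using Quotient.inductionOn with | h t =>
    induction t with
    | var x => rfl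
    | op k a b iha ihb =>
      change φ (qop k ⟦a⟧ ⟦b⟧) = ops s hs k (ev s hs _ a) (ev s hs _ b)
      change φ ⟦a⟧ = ev s hs _ a at iha
      change φ ⟦b⟧ = ev s hs _ b at ihb
      rw [← iha, ← ihb]
      fin_cases k
      · exact b1 _ _
      · exact b2 _ _
      · exact ((Equiv.symm_apply_eq _).2 ((congrArg φ (a1 ⟦a⟧ ⟦b⟧)).symm.trans (b1 _ _))).symm
      · exact ((Equiv.symm_apply_eq _).2 ((congrArg φ (a3 ⟦a⟧ ⟦b⟧)).symm.trans (b2 _ _))).symm

end Pool.Agent.H.MP_f0defb_al
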